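import Pool.Agent.Work.MP_a6e60d_ag.Defs0
import Pool.Agent.Work.MP_f714fc_ag.Geo.CohLin

/-!
MP_a6e60d_ag: the DG enhancement of Perf(X) and full semi-exceptional collections, with the linear
structure of the category of sheaves of modules of `Geo/CohLin`.
-/

open CategoryTheory Limits AlgebraicGeometry

attribute [-instance] CategoryTheory.catToReflQuiver

universe w v u t

namespace FdDG

/-- The DG enhancement of Perf(X): the DG category of the K-injective complexes of sheaves of
modules which are perfect. -/
noncomputable def perfDG (k : Type) [Field k] (X : Scheme.{0}) [X.Over (Spec (.of k))] :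
    DGCat.{0, 1} k :=
  (complexes k X.Modules).full fun I : CochainComplex X.Modules ℤ =>
    I.IsKInjective ∧ IsPerfect I

/-- Perf(X) has a full semi-exceptional collection: a semi-exceptional collection of objects of
Perf(X) such that every object of Perf(X) belongs to the smallest triangulated subcategory closed
under direct summands which contains the collection. -/
def HasFullSemiExceptionalCollection (k : Type) [Field k] (X : Scheme.{0})
    [X.Over (Spec (.of k))] : Prop :=
  ∃ (n : ℕ) (E : Fin n → DerivedCategory X.Modules), (∀ i, IsPerfectObj (E i)) ∧
    IsSemiExceptionalCollection k E ∧ ∀ K : DerivedCategory X.Modules, IsPerfectObj K →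
      ObjectProperty.triangEnvelope (fun Z : DerivedCategory X.Modules => ∃ i, Z = E i) K

end FdDG
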