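import Pool.Agent.Work.MP_a6e60d_ag.Def.Alg
import Pool.Agent.Work.MP_f714fc_ag.Sch.Charts

/-!
MP_a6e60d_ag: the definitions of the problem, first part.  Semi-exceptional collections, perfect
complexes on a scheme, smooth projective varieties.
-/

open CategoryTheory Limits AlgebraicGeometry

attribute [-instance] CategoryTheory.catToReflQuiver

universe w v u t

namespace FdDG

/-- E is semi-exceptional: Hom(E, E[m]) = 0 for all nonzero m and End(E) is a finite-dimensional
semisimple algebra. -/
structure IsSemiExceptional (k : Type t) [Field k] {D : Type u} [Category.{v} D] [Preadditive D]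
    [HasShift D ℤ] [Linear k D] (E : D) : Prop where
  hom_eq_zero : ∀ m : ℤ, m ≠ 0 → ∀ f : E ⟶ E⟦m⟧, f = 0
  finite : Module.Finite k (E ⟶ E)
  semisimple : IsSemisimpleRing (End E)

/-- the sequence E is a semi-exceptional collection: each E i is semi-exceptional and
Hom(E j, E i[m]) = 0 for all j > i and all m -/
def IsSemiExceptionalCollection (k : Type t) [Field k] {D : Type u} [Category.{v} D]
    [Preadditive D] [HasShift D ℤ] [Linear k D] {n : ℕ} (E : Fin n → D) : Prop :=
  (∀ i, IsSemiExceptional k (E i)) ∧ ∀ i j : Fin n, i < j → ∀ (m : ℤ) (f : E j ⟶ (E i)⟦m⟧), f = 0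

/-- the derived category of sheaves of modules -/
noncomputable instance modHasDerivedCategory (X : Scheme.{0}) : HasDerivedCategory.{1} X.Modules :=
  HasDerivedCategory.standard X.Modules

/-- F is a bounded complex of free modules of finite rank -/
def IsBoundedFree {X : Scheme.{0}} (F : CochainComplex X.Modules ℤ) : Prop :=
  (∃ a b : ℤ, F.IsStrictlyGE a ∧ F.IsStrictlyLE b) ∧
    ∀ n : ℤ, ∃ r : ℕ, Nonempty (F.X n ≅
      ∐ fun _ : Fin r => (SheafOfModules.unit X.ringCatSheaf : X.Modules))

/-- The complex K of sheaves of modules on X is perfect: every point has an open neighbourhood U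
such that the restriction of K to U is isomorphic, in the derived category of U, to a bounded
complex of free modules of finite rank. -/
def IsPerfect {X : Scheme.{0}} (K : CochainComplex X.Modules ℤ) : Prop :=
  ∀ x : X, ∃ U : X.Opens, x ∈ U ∧ ∃ F : CochainComplex (U : Scheme.{0}).Modules ℤ,
    IsBoundedFree F ∧ Nonempty (DerivedCategory.Q.obj F ≅ DerivedCategory.Q.obj
      (((Scheme.Modules.restrictFunctor U.ι).mapHomologicalComplex _).obj K))

/-- the objects of Perf(X), a full subcategory of the derived category of sheaves of modules -/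
def IsPerfectObj {X : Scheme.{0}} (E : DerivedCategory X.Modules) : Prop :=
  ∃ K : CochainComplex X.Modules ℤ, IsPerfect K ∧ Nonempty (DerivedCategory.Q.obj K ≅ E)

/-- smooth projective variety over k -/
structure IsSmoothProj (k : Type) [Field k] (X : Scheme.{0}) [X.Over (Spec (.of k))] : Prop where
  integral : GeometricallyIntegral (X ↘ Spec (.of k))
  smooth : Smooth (X ↘ Spec (.of k))
  projective : Fdim.IsProjective k (X ↘ Spec (.of k)) (𝟙 (Spec (.of k)))

end FdDG
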