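import Pool.Agent.Work.MP_a6e60d_ag.Defs0
import Pool.Agent.Work.MP_f714fc_ag.Geo.CohLin

/-!
MP_a6e60d_ag: the definitions of the problem, second part.  The linear structure of the category of
sheaves of modules, the DG enhancement of Perf(X), full semi-exceptional collections.
-/

open CategoryTheory Limits AlgebraicGeometry

attribute [-instance] CategoryTheory.catToReflQuiver Fdim.linearModules

namespace FdPerf

open FdDG

variable (k : Type) [Field k] (X : Scheme.{0}) [X.Over (Spec (.of k))]

/-- the scalars as functions on the open subset U -/
noncomputable def scalar (U : X.Opens) : k →+* Γ(X, U) :=
  ((Scheme.ΓSpecIso (.of k)).inv ≫ (X ↘ Spec (.of k)).appTop ≫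
    X.presheaf.map (homOfLE le_top).op).hom

/-- The category of sheaves of modules on X is linear over k: the product of a scalar and a
morphism is computed on the sections over every open subset. -/
theorem exists_linear : ∃ L : Linear k X.Modules, ∀ (M N : X.Modules) (f : M ⟶ N) (c : k)
    (U : X.Opens) (s : Γ(M, U)), (c • f).app U s = scalar k X U c • f.app U s :=
  ⟨Fdim.linearModules k X, fun _ _ f c U s => by
    refine (Fdim.ap_linear c f U s).trans ?_
    rfl⟩

/-- the linear structure of the category of sheaves of modules on X: the only one with the
property of `exists_linear` -/
noncomputable def linMod : Linear k X.Modules := (exists_linear k X).choose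

attribute [local instance] linMod

/-- The DG enhancement of Perf(X): the DG category of the K-injective complexes of sheaves of
modules which are perfect. -/
noncomputable def perfDG : DGCat.{0, 1} k :=
  (complexes k X.Modules).full fun I : CochainComplex X.Modules ℤ =>
    I.IsKInjective ∧ IsPerfect I

/-- Perf(X) has a full semi-exceptional collection: a semi-exceptional collection of objects of
Perf(X) such that every object of Perf(X) belongs to the smallest triangulated subcategory closed
under direct summands which contains the collection. -/
def HasFullSemiExceptionalCollection : Prop :=
  ∃ (n : ℕ) (E : Fin n → DerivedCategory X.Modules), (∀ i, IsPerfectObj (E i)) ∧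
    IsSemiExceptionalCollection k E ∧ ∀ K : DerivedCategory X.Modules, IsPerfectObj K →
      ObjectProperty.triangEnvelope (fun Z : DerivedCategory X.Modules => ∃ i, Z = E i) K

end FdPerf
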